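import Pool.Agent.Helper38.UN.St

/-! # Project UN: module LAB (labels in the tubes) -/

set_option autoImplicit false

noncomputable section

namespace Pool.Agent.Helper48.UN38

open Pool.Agent.Helper71.UN Pool.Agent.Helper38.UN
open Set Filter Topology Matrix
open scoped ContDiff ComplexConjugate

theorem hLAB : StLAB := by
  intro κ J _ _ n N S r₁ r₂ r hN hr
  refine Filter.eventually_all.2 (fun j => Filter.eventually_all.2 (fun b => ?_))
  have hd : N.d j ≠ 0 := hN.d_ne j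
  have hn : 0 < ‖N.d j‖ := norm_pos_iff.2 hd
  have hq : 0 < r / (2 * ‖N.d j‖) := by positivity
  -- the middle part of the wall
  have hcont : Continuous (fun t : ℝ => N.sp j b + (t : ℂ) * N.d j) := by fun_prop
  have hK : IsCompact ((fun t : ℝ => N.sp j b + (t : ℂ) * N.d j) ''
      Icc (r / (2 * ‖N.d j‖)) (1 - r / (2 * ‖N.d j‖))) := isCompact_Icc.image hcont
  have hKU : ((fun t : ℝ => N.sp j b + (t : ℂ) * N.d j) ''
      Icc (r / (2 * ‖N.d j‖)) (1 - r / (2 * ‖N.d j‖))) ⊆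
      interior {x | (0 < hh (N.d j) (x - N.sp j b) → N.lam x = N.ll j b) ∧
        (hh (N.d j) (x - N.sp j b) < 0 → N.lam x = N.rl j b)} := by
    rintro _ ⟨t, ⟨h1, h2⟩, rfl⟩
    exact mem_interior_iff_mem_nhds.2 (hN.wall j b t (by linarith) (by linarith))
  obtain ⟨δ, hδ, hsub⟩ := hK.exists_thickening_subset_open isOpen_interior hKU
  have hε : Ioo (0 : ℝ) (δ / 2) ∈ 𝓝[>] (0 : ℝ) := Ioo_mem_nhdsGT (by linarith)
  filter_upwards [hε] with ε h1 z hz1 hz2 hz3
  have hmem : N.sp j b + z ∈ Metric.thickening δ ((fun t : ℝ => N.sp j b + (t : ℂ) * N.d j) ''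
      Icc (r / (2 * ‖N.d j‖)) (1 - r / (2 * ‖N.d j‖))) := by
    refine Metric.mem_thickening_iff.2
      ⟨N.sp j b + ((tt (N.d j) z / ‖N.d j‖ : ℝ) : ℂ) * N.d j, ⟨tt (N.d j) z / ‖N.d j‖, ⟨?_, ?_⟩,
        rfl⟩, ?_⟩
    · rw [div_le_div_iff₀ (by positivity) hn]
      nlinarith
    · rw [div_le_iff₀ hn, sub_mul, one_mul]
      have h3 : r / (2 * ‖N.d j‖) * ‖N.d j‖ = r / 2 := by field_simp
      rw [h3]
      exact hz2
    · rw [dist_eq_norm, add_sub_add_left_eq_sub, norm_sub_foot hd]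
      have := h1.2
      linarith
  have hU := interior_subset (hsub hmem)
  simpa using hU

end Pool.Agent.Helper48.UN38
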