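import Pool.Agent.Helper56.UN.St

/-! # Project UN: module TR (transfer to the real root) -/

set_option autoImplicit false

open Set Filter Topology
open scoped ComplexConjugate

noncomputable section

namespace Pool.Agent.Helper48.UN

open Pool.Agent.Helper56.UN Pool.Agent.Helper71.UN
open Pool.Agent.Helper56.FM (Gq)

/-- the cubic polynomial -/
def ff (p q r : ℚ) : Polynomial ℚ :=
  Polynomial.X ^ 3 + Polynomial.C p * Polynomial.X ^ 2 + Polynomial.C q * Polynomial.X +
    Polynomial.C r

theorem ff_natDegree (p q r : ℚ) : (ff p q r).natDegree = 3 := by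
  unfold ff
  compute_degree!

theorem ff_monic (p q r : ℚ) : (ff p q r).Monic := by
  unfold ff
  monicity!

theorem ff_irr (p q r : ℚ) (hx : ∀ x : ℚ, x ^ 3 + p * x ^ 2 + q * x + r ≠ 0) :
    Irreducible (ff p q r) := by
  rw [Polynomial.irreducible_iff_roots_eq_zero_of_degree_le_three
    (by rw [ff_natDegree]; norm_num) (by rw [ff_natDegree])]
  rw [Multiset.eq_zero_iff_forall_notMem]
  intro x hmem
  have h1 := (Polynomial.mem_roots'.1 hmem).2
  have h2 : x ^ 3 + p * x ^ 2 + q * x + r = 0 := by
    simpa [ff, Polynomial.IsRoot] using h1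
  exact hx x h2

theorem shift {F : Type*} [Field F] (z : F) (hz : z ≠ 0) (i K : ℤ) (a : ℕ)
    (ha : (a : ℤ) = i + K) (x y : F) :
    z ^ i * (x + y * z⁻¹) = z ^ (-K - 1) * (z ^ a * (x * z + y)) := by
  have h1 : z ^ i = z ^ (-K - 1) * z ^ a * z := by
    rw [← zpow_natCast z a, ha, ← zpow_add₀ hz, ← zpow_add_one₀ hz]
    congr 1
    ring
  rw [h1]
  field_simp

theorem m_TR : StTR := by
  intro β p q r t hC i j x y x' y' h
  have hr : r ≠ 0 := by
    intro hr
    exact hC.irr 0 (by simp [hr])
  have hβ : β ≠ 0 := by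
    intro h0
    have := hC.im
    rw [h0] at this
    simp at this
  have ht : t ≠ 0 := by
    intro h0
    have h1 := hC.real
    rw [h0] at h1
    have h2 : (r : ℝ) = 0 := by linarith
    exact hr (by exact_mod_cast h2)
  obtain ⟨K, hK⟩ : ∃ K : ℤ, K = |i| + |j| := ⟨_, rfl⟩
  have hi : 0 ≤ i + K := by
    have h1 := neg_abs_le i
    have h2 := abs_nonneg j
    omega
  have hj : 0 ≤ j + K := by
    have h1 := neg_abs_le j
    have h2 := abs_nonneg i
    omega
  obtain ⟨a, ha⟩ := Int.eq_ofNat_of_zero_le hi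
  obtain ⟨b, hb⟩ := Int.eq_ofNat_of_zero_le hj
  rw [shift β hβ i K a ha.symm, shift β hβ j K b hb.symm] at h
  have h1 := mul_left_cancel₀ (zpow_ne_zero _ hβ) h
  rw [shift t ht i K a ha.symm, shift t ht j K b hb.symm]
  congr 1
  -- the polynomial
  have ha0 : Polynomial.aeval β (ff p q r) = 0 := by
    have h2 := hC.cub
    simpa [ff] using h2
  have hb0 : Polynomial.aeval t (ff p q r) = 0 := by
    have h2 := hC.real
    simpa [ff] using h2
  have hm : ff p q r = minpoly ℚ β :=
    minpoly.eq_of_irreducible_of_monic (ff_irr p q r hC.irr) ha0 (ff_monic p q r)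
  have hd : ff p q r ∣ Polynomial.X ^ a * (Polynomial.C x * Polynomial.X + Polynomial.C y) -
      Polynomial.X ^ b * (Polynomial.C x' * Polynomial.X + Polynomial.C y') := by
    rw [hm]
    apply minpoly.dvd
    simpa [sub_eq_zero] using h1
  obtain ⟨g, hg⟩ := hd
  have h3 : Polynomial.aeval t (Polynomial.X ^ a * (Polynomial.C x * Polynomial.X +
      Polynomial.C y) - Polynomial.X ^ b * (Polynomial.C x' * Polynomial.X +
      Polynomial.C y') : Polynomial ℚ) = 0 := by
    rw [hg, map_mul, hb0, zero_mul]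
  simpa [sub_eq_zero] using h3

end Pool.Agent.Helper48.UN
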